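import Mathlib

set_option autoImplicit false

namespace Pool.Agent.Lib.MP_37d573_pr

open Finset

/-- The recursion satisfied by the distribution functions of the tails. -/
def Rec (Q : ℕ → ℝ → ℝ) : Prop :=
  ∀ n : ℕ, 1 ≤ n → ∀ x : ℝ, Q n x = (n / (n + 1) : ℝ) * Q (n + 1) x +
    (1 / (n + 1) : ℝ) * Q (n + 1) (x - 1 / (n + 1))

/-- The recursion satisfied by the size-biased functions. -/
def RecP (P Q : ℕ → ℝ → ℝ) : Prop :=
  ∀ n : ℕ, 1 ≤ n → ∀ x : ℝ, P n x = (n / (n + 1) : ℝ) * P (n + 1) x +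
    (1 / (n + 1) : ℝ) * P (n + 1) (x - 1 / (n + 1)) +
    (1 / (n + 1) ^ 2 : ℝ) * Q (n + 1) (x - 1 / (n + 1))

/-- the weights -/
noncomputable def w (k : ℕ) : ℝ := 1 / (k * (k - 1))

lemma w_nonneg {k : ℕ} (hk : 1 ≤ k) : 0 ≤ w k := by
  unfold w
  have : (1 : ℝ) ≤ k := by exact_mod_cast hk
  apply div_nonneg zero_le_one
  apply mul_nonneg <;> linarith

lemma upper {P Q : ℕ → ℝ → ℝ} (hQ : Rec Q) (hP : RecP P Q) (hQ0 : ∀ n x, 0 ≤ Q n x) (x0 e : ℝ)
    (m : ℕ) (hm : ∀ y ≤ x0, P m y ≤ e) : ∀ j n : ℕ, 1 ≤ n → n + j = m → ∀ y ≤ x0,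
      P n y ≤ ∑ k ∈ Ioc n m, w k * Q n (y - 1 / k) + e := by
  intro j
  induction j with
  | zero =>
    intro n _ hnm y hy
    rw [add_zero] at hnm
    subst hnm
    simpa using hm y hy
  | succ j ih =>
    intro n hn hnm y hy
    have hn0 : (0 : ℝ) < n := by exact_mod_cast hn
    have hn1 : (0 : ℝ) < n + 1 := by linarith
    have hinv : (0 : ℝ) < 1 / (n + 1) := by positivity
    have h1 := ih (n + 1) (by omega) (by omega) y hy
    have h2 := ih (n + 1) (by omega) (by omega) (y - 1 / (n + 1)) (by linarith)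
    have hlt : n < m := by omega
    have hset : Ioc n m = insert (n + 1) (Ioc (n + 1) m) := by
      ext k
      simp only [mem_insert, mem_Ioc]
      omega
    have hni : n + 1 ∉ Ioc (n + 1) m := by simp
    rw [hset, sum_insert hni]
    have hsum : ∑ k ∈ Ioc (n + 1) m, w k * Q n (y - 1 / k) =
        (n / (n + 1) : ℝ) * ∑ k ∈ Ioc (n + 1) m, w k * Q (n + 1) (y - 1 / k) +
        (1 / (n + 1) : ℝ) * ∑ k ∈ Ioc (n + 1) m, w k * Q (n + 1) (y - 1 / (n + 1) - 1 / k) := by
      rw [mul_sum, mul_sum, ← sum_add_distrib]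
      refine sum_congr rfl fun k _ => ?_
      rw [hQ n hn (y - 1 / k)]
      have e1 : y - 1 / (k : ℝ) - 1 / ((n : ℝ) + 1) = y - 1 / ((n : ℝ) + 1) - 1 / k := by ring
      rw [e1]; ring
    have hQn : (1 / (n + 1) ^ 2 : ℝ) * Q (n + 1) (y - 1 / (n + 1)) ≤
        w (n + 1) * Q n (y - 1 / ((n + 1 : ℕ) : ℝ)) := by
      have e1 : w (n + 1) = 1 / ((n + 1 : ℝ) * n) := by
        unfold w; push_cast; ring
      push_cast
      rw [e1, hQ n hn (y - 1 / ((n : ℝ) + 1)), mul_add]
      have e2 : 1 / ((n + 1 : ℝ) * n) * ((n / (n + 1) : ℝ) * Q (n + 1) (y - 1 / (n + 1))) =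
          (1 / (n + 1) ^ 2 : ℝ) * Q (n + 1) (y - 1 / (n + 1)) := by
        field_simp
      rw [e2]
      have e3 : 0 ≤ 1 / ((n + 1 : ℝ) * n) * ((1 / (n + 1) : ℝ) *
          Q (n + 1) (y - 1 / (n + 1) - 1 / (n + 1))) := by
        have := hQ0 (n + 1) (y - 1 / (n + 1) - 1 / (n + 1))
        positivity
      linarith
    rw [hP n hn y, hsum]
    have h1' := mul_le_mul_of_nonneg_left h1 (by positivity : (0 : ℝ) ≤ n / (n + 1))
    have h2' := mul_le_mul_of_nonneg_left h2 hinv.le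
    have e4 : (n / (n + 1) : ℝ) * e + (1 / (n + 1) : ℝ) * e = e := by
      field_simp
    rw [mul_add] at h1' h2'
    linarith

lemma lower {P Q : ℕ → ℝ → ℝ} (hQ : Rec Q) (hP : RecP P Q) (hmono : ∀ n, Monotone (Q n))
    (m : ℕ) (hm : ∀ y, 0 ≤ P m y) : ∀ j n : ℕ, 1 ≤ n → n + j = m → ∀ y,
      ∑ k ∈ Ioc n m, (1 / (k : ℝ) ^ 2) * Q n (y - 1 / k) ≤ P n y := by
  intro j
  induction j with
  | zero =>
    intro n _ hnm y
    rw [add_zero] at hnm
    subst hnm
    simpa using hm y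
  | succ j ih =>
    intro n hn hnm y
    have hn0 : (0 : ℝ) < n := by exact_mod_cast hn
    have hn1 : (0 : ℝ) < n + 1 := by linarith
    have hinv : (0 : ℝ) < 1 / (n + 1) := by positivity
    have h1 := ih (n + 1) (by omega) (by omega) y
    have h2 := ih (n + 1) (by omega) (by omega) (y - 1 / (n + 1))
    have hlt : n < m := by omega
    have hset : Ioc n m = insert (n + 1) (Ioc (n + 1) m) := by
      ext k
      simp only [mem_insert, mem_Ioc]
      omega
    have hni : n + 1 ∉ Ioc (n + 1) m := by simp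
    rw [hset, sum_insert hni]
    have hsum : ∑ k ∈ Ioc (n + 1) m, (1 / (k : ℝ) ^ 2) * Q n (y - 1 / k) =
        (n / (n + 1) : ℝ) * ∑ k ∈ Ioc (n + 1) m, (1 / (k : ℝ) ^ 2) * Q (n + 1) (y - 1 / k) +
        (1 / (n + 1) : ℝ) * ∑ k ∈ Ioc (n + 1) m, (1 / (k : ℝ) ^ 2) *
          Q (n + 1) (y - 1 / (n + 1) - 1 / k) := by
      rw [mul_sum, mul_sum, ← sum_add_distrib]
      refine sum_congr rfl fun k _ => ?_
      rw [hQ n hn (y - 1 / k)]
      have e1 : y - 1 / (k : ℝ) - 1 / ((n : ℝ) + 1) = y - 1 / ((n : ℝ) + 1) - 1 / k := by ring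
      rw [e1]; ring
    have hQn : (1 / (((n + 1 : ℕ) : ℝ)) ^ 2) * Q n (y - 1 / ((n + 1 : ℕ) : ℝ)) ≤
        (1 / (n + 1) ^ 2 : ℝ) * Q (n + 1) (y - 1 / (n + 1)) := by
      push_cast
      refine mul_le_mul_of_nonneg_left ?_ (by positivity)
      rw [hQ n hn (y - 1 / ((n : ℝ) + 1))]
      have e3 : Q (n + 1) (y - 1 / ((n : ℝ) + 1) - 1 / (n + 1)) ≤ Q (n + 1) (y - 1 / (n + 1)) :=
        hmono _ (by linarith)
      have e4 := mul_le_mul_of_nonneg_left e3 hinv.le
      have e5 : (n / (n + 1) : ℝ) * Q (n + 1) (y - 1 / (n + 1)) +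
          (1 / (n + 1) : ℝ) * Q (n + 1) (y - 1 / (n + 1)) = Q (n + 1) (y - 1 / (n + 1)) := by
        field_simp
      linarith
    rw [hP n hn y, hsum]
    have h1' := mul_le_mul_of_nonneg_left h1 (by positivity : (0 : ℝ) ≤ n / (n + 1))
    have h2' := mul_le_mul_of_nonneg_left h2 hinv.le
    linarith

/-- The telescoping weights beyond `1 / r`. -/
lemma sum_w_le (r : ℝ) (hr0 : 0 < r) (hr1 : r < 1) (n m : ℕ) (hn : 1 ≤ n) (hnm : n ≤ m) :
    ∑ k ∈ Ioc n m, (if 1 < k * r then w k else 0) ≤ r / (1 - r) := by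
  have key : ∑ k ∈ Ioc n m, (if 1 < k * r then w k else 0) ≤
      if 1 < m * r then r / (1 - r) - 1 / m else 0 := by
    induction m, hnm using Nat.le_induction with
    | base =>
      simp only [Ioc_self, sum_empty]
      split_ifs with h
      · have hn0 : (0 : ℝ) < n := by exact_mod_cast hn
        rw [sub_nonneg, div_le_div_iff₀ hn0 (by linarith)]
        nlinarith
      · exact le_rfl
    | succ m hm ih =>
      have hm0 : (0 : ℝ) < m := by exact_mod_cast (lt_of_lt_of_le hn hm)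
      have hset : Ioc n (m + 1) = insert (m + 1) (Ioc n m) := by
        ext k
        simp only [mem_insert, mem_Ioc]
        omega
      have hni : m + 1 ∉ Ioc n m := by simp
      rw [hset, sum_insert hni]
      have hw : w (m + 1) = 1 / m - 1 / ((m : ℝ) + 1) := by
        unfold w; push_cast
        rw [add_sub_cancel_right]
        field_simp; ring
      push_cast
      by_cases h1 : 1 < (m : ℝ) * r
      · have h2 : 1 < ((m : ℝ) + 1) * r := by nlinarith
        rw [if_pos h1] at ih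
        rw [if_pos h2, if_pos h2, hw]
        linarith
      · rw [if_neg h1] at ih
        by_cases h2 : 1 < ((m : ℝ) + 1) * r
        · rw [if_pos h2, if_pos h2, hw]
          have h3 : 1 / (m : ℝ) ≤ r / (1 - r) := by
            rw [div_le_div_iff₀ hm0 (by linarith)]
            nlinarith
          linarith
        · rw [if_neg h2, if_neg h2]
          linarith
  refine key.trans ?_
  split_ifs with h
  · have : (0 : ℝ) ≤ 1 / m := by positivity
    linarith
  · exact div_nonneg hr0.le (by linarith)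

/-- All the weights beyond `n`. -/
lemma sum_w_eq (n m : ℕ) (hn : 1 ≤ n) (hnm : n ≤ m) :
    ∑ k ∈ Ioc n m, w k = 1 / n - 1 / m := by
  induction m, hnm using Nat.le_induction with
  | base => simp
  | succ m hm ih =>
    have hm0 : (0 : ℝ) < m := by exact_mod_cast (lt_of_lt_of_le hn hm)
    have hset : Ioc n (m + 1) = insert (m + 1) (Ioc n m) := by
      ext k
      simp only [mem_insert, mem_Ioc]
      omega
    have hni : m + 1 ∉ Ioc n m := by simp
    have hn0 : (0 : ℝ) < n := by exact_mod_cast hn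
    rw [hset, sum_insert hni, ih]
    unfold w; push_cast
    rw [add_sub_cancel_right]
    field_simp; ring

end Pool.Agent.Lib.MP_37d573_pr
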