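import Mathlib
import Pool.Agent.Lib.MP_37d573_pr.Induct

set_option autoImplicit false

namespace Pool.Agent.Lib.MP_37d573_pr

open Finset MeasureTheory

/-- The properties of the distribution functions of the tails `∑_{k > n} I_k / k`. -/
structure Fam (F : ℕ → ℝ → ℝ) : Prop where
  mono : ∀ n, Monotone (F n)
  zero : ∀ n x, x ≤ 0 → F n x = 0
  le_one : ∀ n x, F n x ≤ 1
  recu : Rec F
  tail : ∀ n : ℕ, 1 ≤ n → ∀ a : ℝ, a * (1 - F n a) ≤ 1 / n

variable {F : ℕ → ℝ → ℝ}

lemma Fam.nonneg (hF : Fam F) (n : ℕ) (x : ℝ) : 0 ≤ F n x := by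
  rcases le_total x 0 with h | h
  · rw [hF.zero n x h]
  · rw [← hF.zero n 0 le_rfl]; exact hF.mono n h

/-- The primitive of the distribution function. -/
noncomputable def Phi (F : ℕ → ℝ → ℝ) (n : ℕ) (x : ℝ) : ℝ := ∫ s in (0 : ℝ)..x, F n s

lemma Fam.ii (hF : Fam F) (n : ℕ) (a b : ℝ) : IntervalIntegrable (F n) volume a b :=
  (hF.mono n).intervalIntegrable

lemma Fam.Phi_sub (hF : Fam F) (n : ℕ) (a b : ℝ) : Phi F n b - Phi F n a = ∫ s in a..b, F n s := by
  unfold Phi
  rw [intervalIntegral.integral_interval_sub_left (hF.ii n _ _) (hF.ii n _ _)]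

lemma Fam.Phi_lower (hF : Fam F) (n : ℕ) {a b : ℝ} (hab : a ≤ b) :
    (b - a) * F n a ≤ Phi F n b - Phi F n a := by
  rw [hF.Phi_sub]
  have h := intervalIntegral.integral_mono_on hab (μ := volume) (f := fun _ => F n a) (g := F n)
    (by simp) (hF.ii n a b) (fun x hx => hF.mono n hx.1)
  simpa using h

lemma Fam.Phi_upper (hF : Fam F) (n : ℕ) {a b : ℝ} (hab : a ≤ b) :
    Phi F n b - Phi F n a ≤ (b - a) * F n b := by
  rw [hF.Phi_sub]
  have h := intervalIntegral.integral_mono_on hab (μ := volume) (g := fun _ => F n b) (f := F n)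
    (hF.ii n a b) (by simp) (fun x hx => hF.mono n hx.2)
  simpa using h

lemma Fam.Phi_zero (hF : Fam F) (n : ℕ) {x : ℝ} (hx : x ≤ 0) : Phi F n x = 0 := by
  have h0 : Phi F n 0 = 0 := by simp [Phi]
  have h1 := hF.Phi_lower n hx
  have h2 := hF.Phi_upper n hx
  rw [hF.zero n x hx] at h1
  rw [hF.zero n 0 le_rfl] at h2
  rw [h0] at h1 h2
  linarith

lemma Fam.Phi_mono (hF : Fam F) (n : ℕ) : Monotone (Phi F n) := by
  intro a b hab
  have h1 := hF.Phi_lower n hab
  have h2 := mul_nonneg (sub_nonneg.2 hab) (hF.nonneg n a)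
  linarith

lemma Fam.Phi_nonneg (hF : Fam F) (n : ℕ) (x : ℝ) : 0 ≤ Phi F n x := by
  rcases le_total x 0 with h | h
  · rw [hF.Phi_zero n h]
  · rw [← hF.Phi_zero n le_rfl]; exact hF.Phi_mono n h

lemma Fam.Phi_rec (hF : Fam F) : Rec (Phi F) := by
  intro n hn x
  have h1 : Phi F n x = ∫ s in (0 : ℝ)..x, ((n / (n + 1) : ℝ) * F (n + 1) s +
    (1 / (n + 1) : ℝ) * F (n + 1) (s - 1 / (n + 1))) := by
    unfold Phi
    exact intervalIntegral.integral_congr fun s _ => hF.recu n hn s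
  have hm : Monotone fun s : ℝ => F (n + 1) (s - 1 / (n + 1)) := fun a b hab =>
    hF.mono _ (by linarith)
  rw [h1, intervalIntegral.integral_add ((hF.ii _ _ _).const_mul _)
    (hm.intervalIntegrable.const_mul _), intervalIntegral.integral_const_mul,
    intervalIntegral.integral_const_mul,
    intervalIntegral.integral_comp_sub_right (fun s => F (n + 1) s) (1 / ((n : ℝ) + 1))]
  have h2 := hF.Phi_sub (n + 1) (0 - 1 / ((n : ℝ) + 1)) (x - 1 / (n + 1))
  have h3 : (0 : ℝ) ≤ 1 / ((n : ℝ) + 1) := by positivity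
  rw [← h2, hF.Phi_zero (n + 1) (by linarith : 0 - 1 / ((n : ℝ) + 1) ≤ 0)]
  unfold Phi
  ring

/-- The first moment function `E[Y; Y < x]`. -/
noncomputable def G (F : ℕ → ℝ → ℝ) (n : ℕ) (x : ℝ) : ℝ := x * F n x - Phi F n x

lemma Fam.G_rec (hF : Fam F) : RecP (G F) F := by
  intro n hn x
  have hn1 : (n : ℝ) + 1 ≠ 0 := by positivity
  unfold G
  rw [hF.recu n hn x, hF.Phi_rec n hn x]
  field_simp
  ring

lemma Fam.G_nonneg (hF : Fam F) (n : ℕ) (x : ℝ) : 0 ≤ G F n x := by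
  unfold G
  rcases le_total x 0 with h | h
  · rw [hF.Phi_zero n h, hF.zero n x h]; simp
  · have h1 := hF.Phi_upper n h
    rw [hF.Phi_zero n le_rfl] at h1
    linarith

lemma Fam.G_le (hF : Fam F) (n : ℕ) (hn : 1 ≤ n) {r : ℝ} (hr : 0 < r) {y : ℝ} (hy : y ≤ 1) :
    G F n y ≤ r + 1 / (n * r) := by
  have hn0 : (0 : ℝ) < n := by exact_mod_cast hn
  have hpos : 0 ≤ 1 / ((n : ℝ) * r) := by positivity
  unfold G
  rcases le_total y r with h | h
  · have h1 := hF.Phi_nonneg n y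
    have h2 : y * F n y ≤ r := by
      rcases le_total y 0 with h0 | h0
      · have := mul_nonneg (neg_nonneg.2 h0) (hF.nonneg n y)
        linarith
      · calc y * F n y ≤ y * 1 := mul_le_mul_of_nonneg_left (hF.le_one n y) h0
          _ ≤ r := by linarith
    linarith
  · have h1 := hF.Phi_lower n h
    have h2 := hF.Phi_nonneg n r
    have h3 := hF.tail n hn r
    have h4 : 1 - F n r ≤ 1 / (n * r) := by
      rw [le_div_iff₀ (by positivity)]
      rw [le_div_iff₀ hn0] at h3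
      linarith
    have h5 : y * F n y ≤ y * 1 := mul_le_mul_of_nonneg_left (hF.le_one n y) (by linarith)
    have h6 : (y - r) * (1 - F n r) ≤ 1 * (1 / (n * r)) :=
      mul_le_mul (by linarith) h4 (by linarith [hF.le_one n r]) zero_le_one
    nlinarith

/-- Upper bound for the first moment near zero. -/
lemma Fam.G_upper (hF : Fam F) {x : ℝ} (hx0 : 0 < x) (hx : x ≤ 1 / 6) :
    G F 5 x ≤ (1 + x) / (1 - x) * Phi F 5 x := by
  refine le_of_forall_pos_le_add fun ε hε => ?_
  obtain ⟨m, hm⟩ := exists_nat_gt (4 / ε ^ 2 + 6)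
  have hm6 : (6 : ℝ) < m := by
    have : 0 < 4 / ε ^ 2 := by positivity
    linarith
  have hm6' : 6 < m := by exact_mod_cast hm6
  have hm0 : (0 : ℝ) < m := by linarith
  have hup := upper hF.recu hF.G_rec hF.nonneg 1 ε m (fun y hy => by
    refine (hF.G_le m (by omega) (half_pos hε) hy).trans ?_
    have h1 : 1 / ((m : ℝ) * (ε / 2)) ≤ ε / 2 := by
      rw [div_le_iff₀ (by positivity)]
      have h2 : 4 / ε ^ 2 < m := by linarith
      rw [div_lt_iff₀ (by positivity)] at h2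
      nlinarith
    linarith) (m - 5) 5 (by norm_num) (by omega) x (by linarith)
  refine hup.trans ?_
  have hterm : ∀ k ∈ Ioc 5 m, w k * F 5 (x - 1 / k) ≤
      (1 + x) / (1 - x) * (Phi F 5 (x - 1 / (k + 1 : ℕ)) - Phi F 5 (x - 1 / k)) := by
    intro k hk
    rw [mem_Ioc] at hk
    have hk0 : (5 : ℝ) < k := by exact_mod_cast hk.1
    have hk1 : (0 : ℝ) < k := by linarith
    have hle : x - 1 / (k : ℝ) ≤ x - 1 / ((k + 1 : ℕ) : ℝ) := by
      push_cast
      have : 1 / ((k : ℝ) + 1) ≤ 1 / k := by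
        apply one_div_le_one_div_of_le hk1; linarith
      linarith
    have h1 := hF.Phi_lower 5 hle
    have hfac : 0 ≤ (1 + x) / (1 - x) := div_nonneg (by linarith) (by linarith)
    rcases le_or_gt (x - 1 / (k : ℝ)) 0 with h | h
    · rw [hF.zero 5 _ h, mul_zero]
      refine mul_nonneg hfac ?_
      have := hF.Phi_mono 5 hle
      linarith
    · have hkx : 1 < k * x := by
        have : 1 / (k : ℝ) < x := by linarith
        rw [div_lt_iff₀ hk1] at this
        linarith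
      have hw : w k ≤ (1 + x) / (1 - x) * (1 / k - 1 / ((k : ℝ) + 1)) := by
        unfold w
        have e1 : 1 / (k : ℝ) - 1 / ((k : ℝ) + 1) = 1 / (k * (k + 1)) := by
          field_simp; ring
        rw [e1, div_mul_div_comm, div_le_div_iff₀ (by nlinarith) (by
          apply mul_pos (by linarith); positivity)]
        nlinarith
      calc w k * F 5 (x - 1 / k) ≤ ((1 + x) / (1 - x) * (1 / k - 1 / ((k : ℝ) + 1))) *
            F 5 (x - 1 / k) := mul_le_mul_of_nonneg_right hw (hF.nonneg _ _)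
        _ = (1 + x) / (1 - x) * ((x - 1 / ((k + 1 : ℕ) : ℝ) - (x - 1 / k)) * F 5 (x - 1 / k)) := by
            push_cast; ring
        _ ≤ _ := mul_le_mul_of_nonneg_left h1 hfac
  have hsum := sum_le_sum hterm
  rw [← mul_sum] at hsum
  have htel : ∀ M : ℕ, 5 ≤ M → ∑ k ∈ Ioc 5 M, (Phi F 5 (x - 1 / (k + 1 : ℕ)) - Phi F 5 (x - 1 / k)) =
      Phi F 5 (x - 1 / (M + 1 : ℕ)) - Phi F 5 (x - 1 / (6 : ℕ)) := by
    intro M hM
    induction M, hM using Nat.le_induction with
    | base => simp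
    | succ M hM ih =>
      have hset : Ioc 5 (M + 1) = insert (M + 1) (Ioc 5 M) := by
        ext k
        simp only [mem_insert, mem_Ioc]
        omega
      have hni : M + 1 ∉ Ioc 5 M := by simp
      rw [hset, sum_insert hni, ih]
      ring
  rw [htel m (by omega)] at hsum
  have hz : Phi F 5 (x - 1 / (6 : ℕ)) = 0 := hF.Phi_zero 5 (by push_cast; linarith)
  have hle : Phi F 5 (x - 1 / (m + 1 : ℕ)) ≤ Phi F 5 x := hF.Phi_mono 5 (by
    have : (0 : ℝ) ≤ 1 / ((m + 1 : ℕ) : ℝ) := by positivity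
    linarith)
  have hfac : 0 ≤ (1 + x) / (1 - x) := div_nonneg (by linarith) (by linarith)
  have := mul_le_mul_of_nonneg_left (show Phi F 5 (x - 1 / (m + 1 : ℕ)) - Phi F 5 (x - 1 / (6 : ℕ)) ≤
    Phi F 5 x by rw [hz]; linarith) hfac
  linarith

/-- Lower bound for the first moment near zero. -/
lemma Fam.G_lower (hF : Fam F) {x : ℝ} (hx0 : 0 < x) (hx : x ≤ 1 / 6) :
    (1 - x) * Phi F 5 x ≤ G F 5 x := by
  refine le_of_forall_pos_le_add fun ε hε => ?_
  obtain ⟨m, hm⟩ := exists_nat_gt (1 / ε + 6)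
  have hm6 : (6 : ℝ) < m := by
    have : 0 < 1 / ε := by positivity
    linarith
  have hm6' : 6 < m := by exact_mod_cast hm6
  have hm0 : (0 : ℝ) < m := by linarith
  have hlo := lower hF.recu hF.G_rec hF.mono m (hF.G_nonneg m) (m - 5) 5 (by norm_num) (by omega) x
  have hterm : ∀ k ∈ Ioc 5 m, (1 - x) * (Phi F 5 (x - 1 / k) - Phi F 5 (x - 1 / (k - 1 : ℕ))) ≤
      (1 / (k : ℝ) ^ 2) * F 5 (x - 1 / k) := by
    intro k hk
    rw [mem_Ioc] at hk
    have hk0 : (5 : ℝ) < k := by exact_mod_cast hk.1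
    have hk1 : (0 : ℝ) < k := by linarith
    have hkc : ((k - 1 : ℕ) : ℝ) = k - 1 := by
      rw [Nat.cast_sub (by omega)]; simp
    have hle : x - 1 / ((k - 1 : ℕ) : ℝ) ≤ x - 1 / (k : ℝ) := by
      rw [hkc]
      have : 1 / (k : ℝ) ≤ 1 / (k - 1) := by
        apply one_div_le_one_div_of_le (by linarith); linarith
      linarith
    have h1 := hF.Phi_upper 5 hle
    rcases le_or_gt (x - 1 / (k : ℝ)) 0 with h | h
    · rw [hF.zero 5 _ h, mul_zero] at h1 ⊢
      exact mul_nonpos_of_nonneg_of_nonpos (by linarith) h1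
    · have hkx : 1 < k * x := by
        have : 1 / (k : ℝ) < x := by linarith
        rw [div_lt_iff₀ hk1] at this
        linarith
      have e1 : x - 1 / (k : ℝ) - (x - 1 / ((k - 1 : ℕ) : ℝ)) = 1 / (k * (k - 1)) := by
        rw [hkc]
        have : (k : ℝ) - 1 ≠ 0 := by linarith
        field_simp; ring
      rw [e1] at h1
      have h2 : (1 - x) * (1 / ((k : ℝ) * (k - 1))) ≤ 1 / (k : ℝ) ^ 2 := by
        rw [mul_one_div, div_le_div_iff₀ (by nlinarith) (by positivity)]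
        nlinarith
      calc (1 - x) * (Phi F 5 (x - 1 / k) - Phi F 5 (x - 1 / (k - 1 : ℕ)))
          ≤ (1 - x) * (1 / (k * (k - 1)) * F 5 (x - 1 / k)) :=
            mul_le_mul_of_nonneg_left h1 (by linarith)
        _ = ((1 - x) * (1 / ((k : ℝ) * (k - 1)))) * F 5 (x - 1 / k) := by ring
        _ ≤ _ := mul_le_mul_of_nonneg_right h2 (hF.nonneg _ _)
  have hsum := sum_le_sum hterm
  rw [← mul_sum] at hsum
  have htel : ∀ M : ℕ, 5 ≤ M → ∑ k ∈ Ioc 5 M, (Phi F 5 (x - 1 / k) - Phi F 5 (x - 1 / (k - 1 : ℕ))) =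
      Phi F 5 (x - 1 / M) - Phi F 5 (x - 1 / (5 : ℕ)) := by
    intro M hM
    induction M, hM using Nat.le_induction with
    | base => simp
    | succ M hM ih =>
      have hset : Ioc 5 (M + 1) = insert (M + 1) (Ioc 5 M) := by
        ext k
        simp only [mem_insert, mem_Ioc]
        omega
      have hni : M + 1 ∉ Ioc 5 M := by simp
      rw [hset, sum_insert hni, ih, Nat.add_sub_cancel]
      ring
  rw [htel m (by omega)] at hsum
  have hz : Phi F 5 (x - 1 / (5 : ℕ)) = 0 := hF.Phi_zero 5 (by push_cast; linarith)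
  rw [hz] at hsum
  have h3 := hF.Phi_upper 5 (a := x - 1 / (m : ℝ)) (b := x) (by
    have : (0 : ℝ) ≤ 1 / (m : ℝ) := by positivity
    linarith)
  have h4 : (x - (x - 1 / (m : ℝ))) * F 5 x ≤ 1 / m := by
    have h5 : (0 : ℝ) ≤ 1 / (m : ℝ) := by positivity
    have h6 := mul_le_mul_of_nonneg_left (hF.le_one 5 x) h5
    linarith
  have h5 : 1 / (m : ℝ) ≤ ε := by
    rw [div_le_iff₀ hm0]
    have : 1 / ε < m := by linarith
    rw [div_lt_iff₀ hε] at this
    linarith
  have h6 : Phi F 5 x - ε ≤ Phi F 5 (x - 1 / m) := by linarith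
  have h7 := mul_le_mul_of_nonneg_left h6 (by linarith : 0 ≤ 1 - x)
  nlinarith

end Pool.Agent.Lib.MP_37d573_pr
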