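import Mathlib
import Pool.Agent.Lib.MP_37d573_pr.Small

set_option autoImplicit false

namespace Pool.Agent.Lib.MP_37d573_pr

open Finset MeasureTheory Set

variable {F : ℕ → ℝ → ℝ}

/-- The normalised functions. -/
noncomputable def U (F : ℕ → ℝ → ℝ) (n : ℕ) (x : ℝ) : ℝ := F n x / n

lemma Fam.U_rec (hF : Fam F) (n : ℕ) (hn : 1 ≤ n) (x : ℝ) :
    U F n x = U F (n + 1) x + 1 / n * U F (n + 1) (x - 1 / (n + 1)) := by
  have hn0 : (n : ℝ) ≠ 0 := by
    have : 0 < n := hn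
    exact_mod_cast this.ne'
  unfold U
  rw [hF.recu n hn x]
  push_cast
  field_simp

lemma Fam.U_zero (hF : Fam F) (n : ℕ) {x : ℝ} (hx : x ≤ 0) : U F n x = 0 := by
  unfold U; rw [hF.zero n x hx, zero_div]

lemma Fam.F5_eq (hF : Fam F) {x : ℝ} (hx : x ≤ 1 / 5) : F 5 x = 5 * F 1 x := by
  have h1 := hF.U_rec 1 le_rfl x
  have h2 := hF.U_rec 2 (by norm_num) x
  have h3 := hF.U_rec 3 (by norm_num) x
  have h4 := hF.U_rec 4 (by norm_num) x
  norm_num at h1 h2 h3 h4
  rw [hF.U_zero 2 (x := x - 1 / 2) (by linarith)] at h1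
  rw [hF.U_zero 3 (x := x - 1 / 3) (by linarith)] at h2
  rw [hF.U_zero 4 (x := x - 1 / 4) (by linarith)] at h3
  rw [hF.U_zero 5 (x := x - 1 / 5) (by linarith)] at h4
  norm_num at h1 h2 h3 h4
  rw [h2, h3, h4] at h1
  unfold U at h1
  norm_num at h1
  linarith

lemma Fam.F_pos (hF : Fam F) {y : ℝ} (hy : 0 < y) (n : ℕ) (hn : 1 ≤ n) : 0 < F n y := by
  obtain ⟨m, hm⟩ := exists_nat_gt (1 / y + n)
  have hm1 : n ≤ m := by
    have : (n : ℝ) < m := by
      have : 0 < 1 / y := by positivity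
      linarith
    exact_mod_cast this.le
  have hm0 : (0 : ℝ) < m := by
    have : (1 : ℝ) ≤ n := by exact_mod_cast hn
    have : (n : ℝ) ≤ m := by exact_mod_cast hm1
    linarith
  have hmpos : 0 < F m y := by
    have h1 := hF.tail m (by omega) y
    have h2 : 1 / (m : ℝ) < y := by
      rw [div_lt_iff₀ hm0]
      have : 1 / y < m := by
        have : (0 : ℝ) ≤ n := by positivity
        linarith
      rw [div_lt_iff₀ hy] at this
      linarith
    have h3 : y * (1 - F m y) < y * 1 := by linarith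
    have := lt_of_mul_lt_mul_left h3 hy.le
    linarith
  have key : ∀ j n : ℕ, 1 ≤ n → n + j = m → 0 < F n y := by
    intro j
    induction j with
    | zero => intro n _ h; rw [add_zero] at h; rw [h]; exact hmpos
    | succ j ih =>
      intro n hn h
      rw [hF.recu n hn y]
      have h1 := ih (n + 1) (by omega) (by omega)
      have h2 := hF.nonneg (n + 1) (y - 1 / (n + 1))
      have hn0 : (0 : ℝ) < n := by exact_mod_cast hn
      positivity
  exact key (m - n) n hn (by omega)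

lemma Fam.Phi_pos (hF : Fam F) {y : ℝ} (hy : 0 < y) : 0 < Phi F 5 y := by
  have h1 := hF.Phi_lower 5 (a := y / 2) (b := y) (by linarith)
  have h2 := hF.Phi_nonneg 5 (y / 2)
  have h3 := hF.F_pos (half_pos hy) 5 (by norm_num)
  have h4 : 0 < (y - y / 2) * F 5 (y / 2) := mul_pos (by linarith) h3
  linarith

lemma Fam.hasDerivAt_Phi (hF : Fam F) {x : ℝ} (hc : ContinuousAt (F 5) x) :
    HasDerivAt (Phi F 5) (F 5 x) x := by
  unfold Phi
  exact intervalIntegral.integral_hasDerivAt_right (hF.ii 5 0 x)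
    ((hF.mono 5).measurable.stronglyMeasurable.stronglyMeasurableAtFilter) hc

lemma Fam.bounds (hF : Fam F) {x : ℝ} (hx0 : 0 < x) (hx : x ≤ 1 / 6) :
    (2 - x) * Phi F 5 x ≤ x * F 5 x ∧ x * F 5 x ≤ (2 + 3 * x) * Phi F 5 x := by
  have h1 := hF.G_lower hx0 hx
  have h2 := hF.G_upper hx0 hx
  unfold G at h1 h2
  refine ⟨by linarith, ?_⟩
  have h3 : (1 + x) / (1 - x) ≤ 1 + 3 * x := by
    rw [div_le_iff₀ (by linarith)]
    nlinarith
  have h4 := mul_le_mul_of_nonneg_right h3 (hF.Phi_nonneg 5 x)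
  linarith

/-- Near zero the distribution function is almost linear. -/
lemma Fam.sandwich (hF : Fam F) (hc : ∀ x, 0 < x → ContinuousAt (F 1) x) {ε : ℝ} (hε0 : 0 < ε)
    (hε1 : ε ≤ 1) : ∃ c > 0, ∃ x0 > 0, ∀ y, 0 ≤ y → y ≤ x0 →
      c * (1 - ε) * y ≤ F 5 y ∧ F 5 y ≤ c * (1 + ε) * y := by
  have hc5 : ∀ x ∈ Ioo (0 : ℝ) (1 / 6), ContinuousAt (F 5) x := by
    intro x hx
    have h1 : ContinuousAt (fun y => 5 * F 1 y) x := (hc x hx.1).const_mul 5
    refine h1.congr ?_
    filter_upwards [Iio_mem_nhds (show x < 1 / 5 by linarith [hx.2])] with y hy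
    exact (hF.F5_eq (le_of_lt hy)).symm
  have hd : ∀ x ∈ Ioo (0 : ℝ) (1 / 6), HasDerivAt (Phi F 5) (F 5 x) x := fun x hx =>
    hF.hasDerivAt_Phi (hc5 x hx)
  have hA : ∀ a : ℝ, ∀ x ∈ Ioo (0 : ℝ) (1 / 6),
      HasDerivAt (fun x => Real.exp (a * x) * Phi F 5 x / x ^ 2)
        (Real.exp (a * x) / x ^ 3 * (a * x * Phi F 5 x + x * F 5 x - 2 * Phi F 5 x)) x := by
    intro a x hx
    have hx0 : x ≠ 0 := hx.1.ne'
    have h1 : HasDerivAt (fun x => Real.exp (a * x)) (Real.exp (a * x) * a) x := by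
      have := ((hasDerivAt_id x).const_mul a).exp
      simpa using this
    have h2 := (h1.mul (hd x hx)).div (hasDerivAt_pow 2 x) (pow_ne_zero 2 hx0)
    refine h2.congr_deriv ?_
    simp only [Pi.mul_apply]
    field_simp
    push_cast
    ring
  have hmono : MonotoneOn (fun x => Real.exp (1 * x) * Phi F 5 x / x ^ 2) (Ioo (0 : ℝ) (1 / 6)) := by
    refine monotoneOn_of_deriv_nonneg (convex_Ioo _ _) (fun x hx => (hA 1 x hx).continuousAt.continuousWithinAt)
      (fun x hx => ?_) (fun x hx => ?_)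
    · rw [interior_Ioo] at hx
      exact (hA 1 x hx).differentiableAt.differentiableWithinAt
    · rw [interior_Ioo] at hx
      rw [(hA 1 x hx).deriv]
      have h1 := (hF.bounds hx.1 hx.2.le).1
      refine mul_nonneg (div_nonneg (Real.exp_pos _).le (pow_nonneg hx.1.le 3)) ?_
      linarith
  have hanti : AntitoneOn (fun x => Real.exp (-3 * x) * Phi F 5 x / x ^ 2) (Ioo (0 : ℝ) (1 / 6)) := by
    refine antitoneOn_of_deriv_nonpos (convex_Ioo _ _)
      (fun x hx => (hA (-3) x hx).continuousAt.continuousWithinAt)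
      (fun x hx => ?_) (fun x hx => ?_)
    · rw [interior_Ioo] at hx
      exact (hA (-3) x hx).differentiableAt.differentiableWithinAt
    · rw [interior_Ioo] at hx
      rw [(hA (-3) x hx).deriv]
      have h1 := (hF.bounds hx.1 hx.2.le).2
      refine mul_nonpos_of_nonneg_of_nonpos (div_nonneg (Real.exp_pos _).le (pow_nonneg hx.1.le 3)) ?_
      linarith
  set x0 : ℝ := ε / 10 with hx0
  have hx0p : 0 < x0 := by positivity
  have hx01 : x0 < 1 / 6 := by
    rw [hx0]; linarith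
  set g0 : ℝ := Phi F 5 x0 / x0 ^ 2 with hg0
  have hg0p : 0 < g0 := div_pos (hF.Phi_pos hx0p) (by positivity)
  refine ⟨2 * g0, by positivity, x0, hx0p, fun y hy0 hy => ?_⟩
  rcases hy0.eq_or_lt with rfl | hy0
  · rw [hF.zero 5 0 le_rfl]; simp
  have hyI : y ∈ Ioo (0 : ℝ) (1 / 6) := ⟨hy0, by linarith⟩
  have hxI : x0 ∈ Ioo (0 : ℝ) (1 / 6) := ⟨hx0p, hx01⟩
  have h1 := hmono hyI hxI hy
  have h2 := hanti hyI hxI hy
  simp only at h1 h2
  have hb := hF.bounds hy0 hyI.2.le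
  have hPy := hF.Phi_pos hy0
  set gy : ℝ := Phi F 5 y / y ^ 2 with hgy
  have hgyp : 0 < gy := div_pos hPy (by positivity)
  have hPhi : Phi F 5 y = gy * y ^ 2 := by rw [hgy]; field_simp
  have e1 : Real.exp (1 * y) * Phi F 5 y / y ^ 2 = Real.exp (1 * y) * gy := by rw [hgy]; ring
  have e2 : Real.exp (1 * x0) * Phi F 5 x0 / x0 ^ 2 = Real.exp (1 * x0) * g0 := by rw [hg0]; ring
  have e3 : Real.exp (-3 * y) * Phi F 5 y / y ^ 2 = Real.exp (-3 * y) * gy := by rw [hgy]; ring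
  have e4 : Real.exp (-3 * x0) * Phi F 5 x0 / x0 ^ 2 = Real.exp (-3 * x0) * g0 := by rw [hg0]; ring
  rw [e1, e2] at h1
  rw [e3, e4] at h2
  have hu : (1 - x0) * gy ≤ g0 := by
    have h3 : 1 ≤ Real.exp (1 * y) := by
      rw [one_mul]; linarith [Real.add_one_le_exp y]
    have h4 : Real.exp (1 * x0) * (1 - x0) ≤ 1 := by
      rw [one_mul]
      have h5 := Real.one_sub_le_exp_neg x0
      have h6 : Real.exp x0 * Real.exp (-x0) = 1 := by rw [← Real.exp_add]; simp
      nlinarith [Real.exp_pos x0]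
    have h5 : gy ≤ Real.exp (1 * x0) * g0 := by nlinarith
    have h7 : (1 - x0) * gy ≤ (1 - x0) * (Real.exp (1 * x0) * g0) :=
      mul_le_mul_of_nonneg_left h5 (by linarith)
    nlinarith
  have hl : (1 - 3 * x0) * g0 ≤ gy := by
    have h3 : Real.exp (-3 * y) ≤ 1 := by
      rw [Real.exp_le_one_iff]; linarith
    have h4 : 1 - 3 * x0 ≤ Real.exp (-3 * x0) := by
      have := Real.one_sub_le_exp_neg (3 * x0)
      have e : -(3 * x0) = -3 * x0 := by ring
      rwa [e] at this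
    have h5 := mul_le_mul_of_nonneg_right h4 hg0p.le
    have h6 := mul_le_mul_of_nonneg_right h3 hgyp.le
    linarith
  rw [hPhi] at hb
  have hF1 : (2 - y) * gy * y ≤ F 5 y := by
    have : y * ((2 - y) * gy * y) ≤ y * F 5 y := by
      calc y * ((2 - y) * gy * y) = (2 - y) * (gy * y ^ 2) := by ring
        _ ≤ _ := hb.1
    exact le_of_mul_le_mul_left this hy0
  have hF2 : F 5 y ≤ (2 + 3 * y) * gy * y := by
    have : y * F 5 y ≤ y * ((2 + 3 * y) * gy * y) := by
      calc y * F 5 y ≤ (2 + 3 * y) * (gy * y ^ 2) := hb.2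
        _ = _ := by ring
    exact le_of_mul_le_mul_left this hy0
  constructor
  · refine le_trans ?_ hF1
    refine mul_le_mul_of_nonneg_right ?_ hy0.le
    have h3 : (2 - y) * gy ≥ (2 - x0) * ((1 - 3 * x0) * g0) := by
      have h4 : 0 ≤ 1 - 3 * x0 := by rw [hx0]; linarith
      have h5 : 0 ≤ (1 - 3 * x0) * g0 := mul_nonneg h4 hg0p.le
      nlinarith
    refine le_trans ?_ h3
    have h4 : 2 * (1 - ε) ≤ (2 - x0) * (1 - 3 * x0) := by
      rw [hx0]; nlinarith
    nlinarith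
  · refine le_trans hF2 ?_
    refine mul_le_mul_of_nonneg_right ?_ hy0.le
    have h3 : (2 + 3 * y) * gy ≤ (2 + 3 * x0) * gy := by nlinarith
    refine h3.trans ?_
    have h4 : (2 + 3 * x0) ≤ 2 * (1 + ε) * (1 - x0) := by
      rw [hx0]; nlinarith
    have h5 : (2 + 3 * x0) * gy ≤ 2 * (1 + ε) * (1 - x0) * gy := mul_le_mul_of_nonneg_right h4 hgyp.le
    have h6 : 2 * (1 + ε) * ((1 - x0) * gy) ≤ 2 * (1 + ε) * g0 :=
      mul_le_mul_of_nonneg_left hu (by linarith)
    linarith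

end Pool.Agent.Lib.MP_37d573_pr
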