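import Mathlib
import Pool.Agent.Lib.MP_37d573_pr.Near

set_option autoImplicit false

namespace Pool.Agent.Lib.MP_37d573_pr

open Finset MeasureTheory

variable {F : ℕ → ℝ → ℝ}

/-- The increments over windows of length `h`. -/
noncomputable def d (F : ℕ → ℝ → ℝ) (h : ℝ) (n : ℕ) (a : ℝ) : ℝ := F n (a + h) - F n a

lemma Fam.d_nonneg (hF : Fam F) {h : ℝ} (hh : 0 ≤ h) (n : ℕ) (a : ℝ) : 0 ≤ d F h n a := by
  unfold d
  have := hF.mono n (show a ≤ a + h by linarith)
  linarith

lemma Fam.d_le_one (hF : Fam F) (h : ℝ) (n : ℕ) (a : ℝ) : d F h n a ≤ 1 := by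
  unfold d
  have := hF.le_one n (a + h)
  have := hF.nonneg n a
  linarith

lemma Fam.d_zero (hF : Fam F) {h : ℝ} (hh : 0 ≤ h) (n : ℕ) {a : ℝ} (ha : a + h ≤ 0) :
    d F h n a = 0 := by
  unfold d
  rw [hF.zero n _ ha, hF.zero n a (by linarith)]; ring

lemma Fam.d_rec (hF : Fam F) (h : ℝ) : Rec (d F h) := by
  intro n hn x
  unfold d
  rw [hF.recu n hn (x + h), hF.recu n hn x]
  have e : x + h - 1 / ((n : ℝ) + 1) = x - 1 / (n + 1) + h := by ring
  rw [e]; ring

lemma Fam.ad_rec (hF : Fam F) (h : ℝ) : RecP (fun n a => a * d F h n a) (d F h) := by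
  intro n hn x
  simp only
  rw [hF.d_rec h n hn x]
  have hn1 : (n : ℝ) + 1 ≠ 0 := by positivity
  field_simp
  ring

lemma Fam.sizebias (hF : Fam F) {h : ℝ} (hh : 0 ≤ h) (a : ℝ) (m : ℕ) (hm : 5 ≤ m) :
    a * d F h 5 a ≤ ∑ k ∈ Ioc 5 m, w k * d F h 5 (a - 1 / k) + 1 / m := by
  have hm0 : (0 : ℝ) < m := by exact_mod_cast (by omega : 0 < m)
  refine upper (hF.d_rec h) (hF.ad_rec h) (hF.d_nonneg hh) a (1 / m) m (fun y _ => ?_) (m - 5) 5
    (by norm_num) (by omega) a le_rfl
  rcases le_total y 0 with h0 | h0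
  · have h1 := mul_nonneg (neg_nonneg.2 h0) (hF.d_nonneg hh m y)
    have h2 : (0 : ℝ) ≤ 1 / m := by positivity
    linarith
  · have h1 := hF.tail m (by omega) y
    have h2 : y * d F h m y ≤ y * (1 - F m y) := by
      refine mul_le_mul_of_nonneg_left ?_ h0
      unfold d
      have := hF.le_one m (y + h)
      linarith
    exact h2.trans h1

lemma Fam.step (hF : Fam F) {h : ℝ} (hh : 0 ≤ h) {t T B κ l : ℝ} (ht : 0 < t) (htT : t < T)
    (hT : T - t < 1) (hB : 0 ≤ B) (hlow : ∀ a ≤ t, d F h 5 a ≤ B)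
    (hκ : ∀ a, t < a → a ≤ T → ∀ m : ℕ, 5 ≤ m →
      ∑ k ∈ Ioc 5 m, (if 1 < k * (a + h) then w k else 0) ≤ κ * a)
    (hl : ∀ a, t < a → a ≤ T → (a - t) / (1 - (a - t)) ≤ l * a) (hl0 : 0 ≤ l) (hl1 : l < 1)
    (hκ1 : 1 ≤ κ) : ∀ a ≤ T, d F h 5 a ≤ B * (1 + (κ - 1) / (1 - l)) := by
  set S : ℝ := sSup (d F h 5 '' Set.Iic T) with hS
  have hbdd : BddAbove (d F h 5 '' Set.Iic T) := ⟨1, by
    rintro _ ⟨a, _, rfl⟩
    exact hF.d_le_one h 5 a⟩
  have hle : ∀ a ≤ T, d F h 5 a ≤ S := fun a ha => le_csSup hbdd ⟨a, ha, rfl⟩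
  set s : ℝ := max S B with hs
  have hBs : B ≤ s := le_max_right _ _
  have key : ∀ a ≤ T, d F h 5 a ≤ B * κ + l * (s - B) := by
    intro a ha
    rcases le_or_gt a t with hat | hat
    · have h1 := hlow a hat
      have h2 : 0 ≤ l * (s - B) := mul_nonneg hl0 (by linarith)
      have h3 : B ≤ B * κ := by nlinarith
      linarith
    · have ha0 : 0 < a := by linarith
      have h1 : ∀ m : ℕ, 5 ≤ m → a * d F h 5 a ≤ (B * κ + l * (s - B)) * a + 1 / m := by
        intro m hm
        refine (hF.sizebias hh a m hm).trans ?_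
        have hterm : ∀ k ∈ Ioc 5 m, w k * d F h 5 (a - 1 / k) ≤
            B * (if 1 < k * (a + h) then w k else 0) +
            (s - B) * (if 1 < k * (a - t) then w k else 0) := by
          intro k hk
          rw [mem_Ioc] at hk
          have hk0 : (0 : ℝ) < k := by exact_mod_cast (by omega : 0 < k)
          have hwk : 0 ≤ w k := w_nonneg (by omega)
          by_cases c1 : 1 < k * (a + h)
          · rw [if_pos c1]
            by_cases c2 : 1 < k * (a - t)
            · rw [if_pos c2]
              have h3 : d F h 5 (a - 1 / k) ≤ s := (hle _ (by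
                have : (0 : ℝ) ≤ 1 / k := by positivity
                linarith)).trans (le_max_left _ _)
              have := mul_le_mul_of_nonneg_left h3 hwk
              linarith
            · rw [if_neg c2]
              have h3 : d F h 5 (a - 1 / k) ≤ B := by
                apply hlow
                have h4 : a - t ≤ 1 / k := by
                  rw [le_div_iff₀ hk0]; linarith
                linarith
              have := mul_le_mul_of_nonneg_left h3 hwk
              linarith
          · have h3 : a - 1 / k + h ≤ 0 := by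
              have h4 : a + h ≤ 1 / k := by
                rw [le_div_iff₀ hk0]; linarith
              linarith
            rw [hF.d_zero hh 5 h3, mul_zero]
            have h5 : 0 ≤ (if 1 < k * (a + h) then w k else 0) := by split_ifs <;> first | exact hwk | exact le_rfl
            have h6 : 0 ≤ (if 1 < k * (a - t) then w k else 0) := by split_ifs <;> first | exact hwk | exact le_rfl
            have h7 := mul_nonneg hB h5
            have h8 := mul_nonneg (sub_nonneg.2 hBs) h6
            linarith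
        have hsum := sum_le_sum hterm
        rw [sum_add_distrib, ← mul_sum, ← mul_sum] at hsum
        have h2 := mul_le_mul_of_nonneg_left (hκ a hat ha m hm) hB
        have h3 := mul_le_mul_of_nonneg_left ((sum_w_le (a - t) (by linarith) (by linarith) 5 m
          (by norm_num) hm).trans (hl a hat ha)) (sub_nonneg.2 hBs)
        linarith
      have h2 : a * d F h 5 a ≤ (B * κ + l * (s - B)) * a := by
        refine le_of_forall_pos_le_add fun ε hε => ?_
        obtain ⟨m, hm⟩ := exists_nat_gt (1 / ε + 5)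
        have hm5 : (5 : ℝ) < m := by
          have : 0 < 1 / ε := by positivity
          linarith
        have hm5' : 5 < m := by exact_mod_cast hm5
        refine (h1 m hm5'.le).trans ?_
        have : 1 / (m : ℝ) ≤ ε := by
          rw [div_le_iff₀ (by linarith)]
          have : 1 / ε < m := by linarith
          rw [div_lt_iff₀ hε] at this
          linarith
        linarith
      have h3 : a * d F h 5 a ≤ a * (B * κ + l * (s - B)) := by linarith
      exact le_of_mul_le_mul_left h3 ha0
  have hSle : S ≤ B * κ + l * (s - B) := by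
    refine csSup_le ⟨_, ⟨T, Set.mem_Iic.2 le_rfl, rfl⟩⟩ ?_
    rintro _ ⟨a, ha, rfl⟩
    exact key a ha
  have hsle : s ≤ B * κ + l * (s - B) := by
    refine max_le hSle ?_
    have h2 : 0 ≤ l * (s - B) := mul_nonneg hl0 (by linarith)
    have h3 : B ≤ B * κ := by nlinarith
    linarith
  intro a ha
  have h1 : d F h 5 a ≤ s := (hle a ha).trans (le_max_left _ _)
  refine h1.trans ?_
  have h2 : 0 < 1 - l := by linarith
  have e : B * (1 + (κ - 1) / (1 - l)) = B * (κ - l) / (1 - l) := by
    field_simp; ring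
  rw [e, le_div_iff₀ h2]
  linarith

lemma Fam.contract (hF : Fam F) {h : ℝ} (hh : 0 ≤ h) {a B : ℝ} (hB : 0 ≤ B)
    (hk : ∀ k : ℕ, 6 ≤ k → d F h 5 (a - 1 / k) ≤ B) : a * d F h 5 a ≤ B / 5 := by
  refine le_of_forall_pos_le_add fun ε hε => ?_
  obtain ⟨m, hm⟩ := exists_nat_gt (1 / ε + 5)
  have hm5 : (5 : ℝ) < m := by
    have : 0 < 1 / ε := by positivity
    linarith
  have hm5' : 5 < m := by exact_mod_cast hm5
  refine (hF.sizebias hh a m hm5'.le).trans ?_
  have h1 : 1 / (m : ℝ) ≤ ε := by
    rw [div_le_iff₀ (by linarith)]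
    have : 1 / ε < m := by linarith
    rw [div_lt_iff₀ hε] at this
    linarith
  have h2 : ∑ k ∈ Ioc 5 m, w k * d F h 5 (a - 1 / k) ≤ ∑ k ∈ Ioc 5 m, w k * B := by
    refine sum_le_sum fun k hk' => ?_
    rw [mem_Ioc] at hk'
    exact mul_le_mul_of_nonneg_left (hk k (by omega)) (w_nonneg (by omega))
  rw [← sum_mul, sum_w_eq 5 m (by norm_num) hm5'.le] at h2
  have h3 : (1 / ((5 : ℕ) : ℝ) - 1 / m) * B ≤ B / 5 := by
    have : (0 : ℝ) ≤ 1 / m := by positivity
    push_cast
    nlinarith
  linarith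

lemma exp_bound : Real.exp (1134204 / 1000000) ≤ 315 / 100 := by
  have e : (1134204 / 1000000 : ℝ) = 1 + 134204 / 1000000 := by norm_num
  rw [e, Real.exp_add]
  have h1 := Real.exp_one_lt_d9
  have h2 : Real.exp (134204 / 1000000) * (1 - 134204 / 1000000) ≤ 1 := by
    have h5 := Real.one_sub_le_exp_neg (134204 / 1000000)
    have h6 : Real.exp (134204 / 1000000) * Real.exp (-(134204 / 1000000)) = 1 := by
      rw [← Real.exp_add]; simp
    nlinarith [Real.exp_pos (134204 / 1000000)]
  have h3 : Real.exp (134204 / 1000000) ≤ 11551 / 10000 := by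
    norm_num at h2 ⊢
    linarith
  have h4 := Real.exp_pos (1 : ℝ)
  have h5 := Real.exp_pos (134204 / 1000000 : ℝ)
  nlinarith

/-- The bound on the increments at all scales up to `1 / 5`. -/
lemma Fam.iterate (hF : Fam F) {h : ℝ} (hh : 0 < h) {B : ℝ} (hB : 0 ≤ B)
    (h0 : ∀ a ≤ 1000 * h, d F h 5 a ≤ B) (j : ℕ) : 2 ^ j * (1000 * h) ≤ 1 / 5 →
    ∀ a ≤ 2 ^ j * (1000 * h), d F h 5 a ≤ B * Real.exp (5.64 * (2 ^ j * (1000 * h)) -
      6.204 * h / (2 ^ j * (1000 * h)) + 6.204 / 1000) := by
  induction j with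
  | zero =>
    intro _ a ha
    rw [pow_zero, one_mul] at ha ⊢
    refine (h0 a ha).trans ?_
    have h1 : (1 : ℝ) ≤ Real.exp (5.64 * (1000 * h) - 6.204 * h / (1000 * h) + 6.204 / 1000) := by
      refine Real.one_le_exp ?_
      have : 6.204 * h / (1000 * h) = 6.204 / 1000 := by field_simp
      rw [this]
      linarith
    nlinarith
  | succ j ih =>
    intro hj a ha
    set t : ℝ := 2 ^ j * (1000 * h) with ht
    have h2j : (1 : ℝ) ≤ 2 ^ j := one_le_pow₀ (by norm_num)
    have hT : 2 ^ (j + 1) * (1000 * h) = 2 * t := by rw [ht]; ring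
    rw [hT] at hj ha ⊢
    have ht0 : 0 < t := by positivity
    have hht : 1000 * h ≤ t := by rw [ht]; nlinarith
    have ht10 : t ≤ 1 / 10 := by linarith
    set η : ℝ := h / t with hη
    have hη0 : 0 < η := by positivity
    have hη1 : η ≤ 1 / 1000 := by
      rw [hη, div_le_iff₀ ht0]; linarith
    have hhη : h = η * t := by rw [hη]; field_simp
    have hden : 0 < 1 - 2 * t - h := by linarith
    have ih' := ih (by linarith)
    set B' : ℝ := B * Real.exp (5.64 * t - 6.204 * h / t + 6.204 / 1000) with hB'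
    have hB'0 : 0 ≤ B' := mul_nonneg hB (Real.exp_pos _).le
    have hκ1 : 1 ≤ (1 + η) / (1 - 2 * t - h) := by
      rw [le_div_iff₀ hden]; linarith
    have hs := hF.step hh.le (t := t) (T := 2 * t) (B := B') (κ := (1 + η) / (1 - 2 * t - h))
      (l := 5 / 9) ht0 (by linarith) (by linarith) hB'0 ih' (by
        intro a ha1 ha2 m hm
        refine (sum_w_le (a + h) (by linarith) (by linarith) 5 m (by norm_num) hm).trans ?_
        rw [div_le_iff₀ (by linarith), div_mul_eq_mul_div, div_mul_eq_mul_div, le_div_iff₀ hden]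
        have h3 : a + h ≤ (1 + η) * a := by
          have : h ≤ η * a := by
            rw [hhη]; exact mul_le_mul_of_nonneg_left ha1.le hη0.le
          linarith
        have h4 : (1 - 2 * t - h) ≤ (1 - (a + h)) := by linarith
        have h5 : 0 ≤ a + h := by linarith
        calc (a + h) * (1 - 2 * t - h) ≤ ((1 + η) * a) * (1 - 2 * t - h) :=
              mul_le_mul_of_nonneg_right h3 hden.le
          _ ≤ ((1 + η) * a) * (1 - (a + h)) := mul_le_mul_of_nonneg_left h4 (by linarith)
          _ = _ := by ring) (by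
        intro a ha1 ha2
        rw [div_le_iff₀ (by linarith)]
        nlinarith) (by norm_num) (by norm_num) hκ1 a ha
    refine hs.trans ?_
    have h6 : 1 + ((1 + η) / (1 - 2 * t - h) - 1) / (1 - 5 / 9) ≤
        Real.exp (5.64 * t + 3.102 * η) := by
      refine le_trans ?_ (Real.add_one_le_exp _)
      have h7 : ((1 + η) / (1 - 2 * t - h) - 1) / (1 - 5 / 9) =
          (9 / 4 * (η + 2 * t + h)) / (1 - 2 * t - h) := by
        field_simp; ring
      rw [h7]
      have h8 : (9 / 4 * (η + 2 * t + h)) / (1 - 2 * t - h) ≤ 5.64 * t + 3.102 * η := by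
        rw [div_le_iff₀ hden]
        have h9 : h ≤ 1 / 10000 := by linarith
        have h10 : h ≤ η / 10 := by
          rw [hhη]; nlinarith
        have h11 : (0.7999 : ℝ) ≤ 1 - 2 * t - h := by norm_num; linarith
        have h12 : (5.64 * t + 3.102 * η) * 0.7999 ≤ (5.64 * t + 3.102 * η) * (1 - 2 * t - h) :=
          mul_le_mul_of_nonneg_left h11 (by positivity)
        refine le_trans ?_ h12
        norm_num
        linarith
      linarith
    have h7 := mul_le_mul_of_nonneg_left h6 hB'0
    refine h7.trans (le_of_eq ?_)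
    rw [hB', mul_assoc, ← Real.exp_add]
    congr 2
    have e1 : 6.204 * h / t = 6.204 * η := by rw [hη]; ring
    have e2 : 6.204 * h / (2 * t) = 3.102 * η := by rw [hη]; field_simp; ring
    rw [e1, e2]
    ring

/-- The final bound: the increments to the left of `1 / 2` are small. -/
lemma Fam.final (hF : Fam F) {h : ℝ} (hh : 0 < h) {B : ℝ} (hB : 0 ≤ B)
    (h0 : ∀ a ≤ 1000 * h, d F h 5 a ≤ B) (j : ℕ) (hj : 2 ^ j * (1000 * h) = 1 / 5) :
    d F h 5 (1 / 2 - h) ≤ 77 / 100 * B := by
  have h2j : (1 : ℝ) ≤ 2 ^ j := one_le_pow₀ (by norm_num)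
  have hhs : h ≤ 1 / 5000 := by
    have : 1000 * h ≤ 1 / 5 := by rw [← hj]; nlinarith
    linarith
  have h1 := hF.iterate hh hB h0 j hj.le
  rw [hj] at h1
  set B1 : ℝ := 315 / 100 * B with hB1
  have hB10 : 0 ≤ B1 := by positivity
  have h2 : ∀ a ≤ 1 / 5, d F h 5 a ≤ B1 := by
    intro a ha
    refine (h1 a ha).trans ?_
    rw [hB1, mul_comm]
    refine mul_le_mul_of_nonneg_right ?_ hB
    refine le_trans (Real.exp_le_exp.2 ?_) exp_bound
    have : 0 ≤ 6.204 * h / (1 / 5) := by positivity
    norm_num at this ⊢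
    linarith
  have h3 : ∀ a ≤ 1 / 2, d F h 5 a ≤ B1 := by
    have := hF.step hh.le (t := 1 / 5) (T := 1 / 2) (B := B1) (κ := 1) (l := 6 / 7) (by norm_num)
      (by norm_num) (by norm_num) hB10 h2 (by
        intro a ha1 ha2 m hm
        have h4 : ∑ k ∈ Ioc 5 m, (if 1 < k * (a + h) then w k else 0) ≤ ∑ k ∈ Ioc 5 m, w k := by
          refine sum_le_sum fun k hk => ?_
          rw [mem_Ioc] at hk
          have hwk : 0 ≤ w k := w_nonneg (by omega)
          split_ifs
          · exact le_rfl
          · exact hwk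
        rw [sum_w_eq 5 m (by norm_num) hm] at h4
        have : (0 : ℝ) ≤ 1 / m := by positivity
        push_cast at h4
        linarith) (by
        intro a ha1 ha2
        rw [div_le_iff₀ (by linarith)]
        nlinarith) (by norm_num) (by norm_num) le_rfl
    simpa using this
  set B2 : ℝ := B1 / (5 * (1 / 3 - h)) with hB2
  have hB20 : 0 ≤ B2 := div_nonneg hB10 (by linarith)
  have h4 : ∀ a, 1 / 3 - h ≤ a → a ≤ 1 / 2 → d F h 5 a ≤ B2 := by
    intro a ha1 ha2
    have h5 := hF.contract hh.le (a := a) hB10 (fun k hk => h3 _ (by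
      have : (0 : ℝ) ≤ 1 / k := by positivity
      linarith))
    have ha0 : 0 < a := by linarith
    have h6 : d F h 5 a ≤ B1 / (5 * a) := by
      rw [le_div_iff₀ (by positivity)]
      linarith
    refine h6.trans ?_
    rw [hB2]
    exact div_le_div_of_nonneg_left hB10 (by linarith) (by linarith)
  have h5 := hF.contract hh.le (a := 1 / 2 - h) hB20 (fun k hk => h4 _ (by
      have : (1 : ℝ) / k ≤ 1 / 6 := by
        apply one_div_le_one_div_of_le (by norm_num)
        exact_mod_cast hk
      linarith) (by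
      have : (0 : ℝ) ≤ 1 / k := by positivity
      linarith))
  have h6 : B2 ≤ 1.902 * B := by
    rw [hB2, hB1, div_le_iff₀ (by linarith)]
    have : (1.902 : ℝ) * B * (5 * (1 / 3 - h)) - 315 / 100 * B =
        (1.902 * (5 * (1 / 3 - h)) - 315 / 100) * B := by ring
    have h7 : 0 ≤ (1.902 * (5 * (1 / 3 - h)) - 315 / 100) * B := by
      apply mul_nonneg _ hB
      norm_num
      linarith
    linarith
  have h7 : (1 / 2 - h) * d F h 5 (1 / 2 - h) ≤ (1 / 2 - h) * (77 / 100 * B) := by
    refine h5.trans ?_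
    have h8 : 1.902 * B / 5 ≤ (1 / 2 - h) * (77 / 100 * B) := by
      have : (1 / 2 - h) * (77 / 100 * B) - 1.902 * B / 5 = ((1 / 2 - h) * (77 / 100) - 1.902 / 5) * B := by
        ring
      have h9 : 0 ≤ ((1 / 2 - h) * (77 / 100) - 1.902 / 5) * B := by
        apply mul_nonneg _ hB
        norm_num
        linarith
      linarith
    linarith
  exact le_of_mul_le_mul_left h7 (by linarith)

end Pool.Agent.Lib.MP_37d573_pr
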