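import Mathlib
import Pool.Agent.Lib.MP_37d573_pr.Sup

set_option autoImplicit false

namespace Pool.Agent.Lib.MP_37d573_pr

open Finset MeasureTheory Filter Topology

variable {F : ℕ → ℝ → ℝ}

/-- Second differences of the normalised distribution functions. -/
noncomputable def E (F : ℕ → ℝ → ℝ) (h : ℝ) (n : ℕ) (x : ℝ) : ℝ :=
  U F n (x + h) - 2 * U F n x + U F n (x - h)

lemma Fam.E_rec (hF : Fam F) (h : ℝ) (n : ℕ) (hn : 1 ≤ n) (x : ℝ) :
    E F h n x = E F h (n + 1) x + 1 / n * E F h (n + 1) (x - 1 / (n + 1)) := by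
  unfold E
  rw [hF.U_rec n hn (x + h), hF.U_rec n hn x, hF.U_rec n hn (x - h)]
  have e1 : x + h - 1 / ((n : ℝ) + 1) = x - 1 / (n + 1) + h := by ring
  have e2 : x - h - 1 / ((n : ℝ) + 1) = x - 1 / (n + 1) - h := by ring
  rw [e1, e2]; ring

lemma Fam.E_zero (hF : Fam F) {h : ℝ} (hh : 0 ≤ h) (n : ℕ) {x : ℝ} (hx : x + h ≤ 0) :
    E F h n x = 0 := by
  unfold E
  rw [hF.U_zero n hx, hF.U_zero n (x := x) (by linarith), hF.U_zero n (x := x - h) (by linarith)]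
  ring

lemma Fam.E_at_zero (hF : Fam F) {h : ℝ} (hh : 0 ≤ h) (n : ℕ) : E F h n 0 = U F n h := by
  unfold E
  rw [hF.U_zero n (x := 0) le_rfl, hF.U_zero n (x := 0 - h) (by linarith)]
  simp

/-- The deconvolution identity. -/
lemma Fam.deconv (hF : Fam F) {h : ℝ} (hh : 0 ≤ h) (h1 : h ≤ 1 / 100) :
    E F h 5 (1 / 2) = E F h 1 (1 / 2) - 1 / 2 * E F h 1 (1 / 6) - 1 / 3 * E F h 1 (1 / 4) -
      1 / 4 * E F h 1 (3 / 10) + 1 / 12 * E F h 1 (1 / 20) + 1 / 16 * E F h 1 (1 / 10) -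
      8 / 9 * U F 5 h := by
  have r1 := hF.E_rec h 1 le_rfl
  have r2 := hF.E_rec h 2 (by norm_num)
  have r3 := hF.E_rec h 3 (by norm_num)
  have r4 := hF.E_rec h 4 (by norm_num)
  have z : ∀ n : ℕ, ∀ x : ℝ, x ≤ -(1 / 100) → E F h n x = 0 := fun n x hx =>
    hF.E_zero hh n (by linarith)
  -- at 1/2
  have a1 := r1 (1 / 2)
  have a2 := r2 (1 / 2)
  have a3 := r3 (1 / 2)
  have a4 := r4 (1 / 2)
  -- at 3/10
  have b1 := r1 (3 / 10)
  have b2 := r2 (3 / 10)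
  have b3 := r3 (3 / 10)
  have b4 := r4 (3 / 10)
  -- at 1/4
  have c1 := r1 (1 / 4)
  have c2 := r2 (1 / 4)
  have c3 := r3 (1 / 4)
  -- at 1/6
  have d1 := r1 (1 / 6)
  have d2 := r2 (1 / 6)
  -- at 1/10
  have e1 := r1 (1 / 10)
  have e2 := r2 (1 / 10)
  have e3 := r3 (1 / 10)
  have e4 := r4 (1 / 10)
  -- at 1/20
  have f1 := r1 (1 / 20)
  have f2 := r2 (1 / 20)
  have f3 := r3 (1 / 20)
  -- at 0
  have g2 := r2 0
  have g3 := r3 0
  have g4 := r4 0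
  norm_num at a1 a2 a3 a4 b1 b2 b3 b4 c1 c2 c3 d1 d2 e1 e2 e3 e4 f1 f2 f3 g2 g3 g4
  have z1 := z 2 (-(1 / 5)) (by norm_num)
  have z2 := z 2 (-(1 / 4)) (by norm_num)
  have z3 := z 2 (-(1 / 3)) (by norm_num)
  have z4 := z 2 (-(2 / 5)) (by norm_num)
  have z5 := z 2 (-(9 / 20)) (by norm_num)
  have z6 := z 3 (-(1 / 30)) (by norm_num)
  have z7 := z 3 (-(1 / 12)) (by norm_num)
  have z8 := z 3 (-(1 / 6)) (by norm_num)
  have z9 := z 3 (-(7 / 30)) (by norm_num)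
  have z10 := z 3 (-(17 / 60)) (by norm_num)
  have z11 := z 3 (-(1 / 3)) (by norm_num)
  have z12 := z 4 (-(3 / 20)) (by norm_num)
  have z13 := z 4 (-(1 / 5)) (by norm_num)
  have z14 := z 4 (-(1 / 4)) (by norm_num)
  have z15 := z 5 (-(1 / 10)) (by norm_num)
  have z16 := z 5 (-(1 / 5)) (by norm_num)
  rw [z1] at b1
  rw [z2] at c1
  rw [z3] at d1
  rw [z4] at e1
  rw [z5] at f1
  rw [z6] at b2
  rw [z7] at c2
  rw [z8] at d2
  rw [z9] at e2
  rw [z10] at f2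
  rw [z11] at g2
  rw [z12] at e3
  rw [z13] at f3
  rw [z14] at g3
  rw [z15] at e4
  rw [z16] at g4
  have hz := hF.E_at_zero hh 5
  linarith

/-- The core statement: the distribution function cannot be differentiable on the whole half line. -/
theorem core (hF : Fam F) (hd : ∀ x, 0 < x → DifferentiableAt ℝ (F 1) x) : False := by
  obtain ⟨c, hc, x0, hx0, hlin⟩ := hF.sandwich (fun x hx => (hd x hx).continuousAt)
    (ε := 1 / 100000) (by norm_num) (by norm_num)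
  -- second differences are small
  have hsmall : ∀ x, 0 < x → ∃ δ > 0, ∀ h, 0 ≤ h → h < δ → |E F h 1 x| ≤ c / 1000 * h := by
    intro x hx
    have hD := (hd x hx).hasDerivAt
    rw [hasDerivAt_iff_isLittleO] at hD
    have hO := hD.def (show (0 : ℝ) < c / 2000 by positivity)
    rw [Metric.eventually_nhds_iff] at hO
    obtain ⟨δ, hδ, hO⟩ := hO
    refine ⟨δ, hδ, fun h hh0 hh => ?_⟩
    have h1 := hO (y := x + h) (by rw [Real.dist_eq]; simpa [abs_of_nonneg hh0] using hh)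
    have h2 := hO (y := x - h) (by rw [Real.dist_eq]; simpa [abs_of_nonneg hh0] using hh)
    simp only [Real.norm_eq_abs, smul_eq_mul] at h1 h2
    have e1 : x + h - x = h := by ring
    have e2 : x - h - x = -h := by ring
    rw [e1, abs_of_nonneg hh0] at h1
    rw [e2, abs_neg, abs_of_nonneg hh0] at h2
    unfold E U
    rw [abs_le] at h1 h2 ⊢
    push_cast
    constructor <;> linarith [h1.1, h1.2, h2.1, h2.2]
  obtain ⟨δ1, hδ1, s1⟩ := hsmall (1 / 2) (by norm_num)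
  obtain ⟨δ2, hδ2, s2⟩ := hsmall (1 / 6) (by norm_num)
  obtain ⟨δ3, hδ3, s3⟩ := hsmall (1 / 4) (by norm_num)
  obtain ⟨δ4, hδ4, s4⟩ := hsmall (3 / 10) (by norm_num)
  obtain ⟨δ5, hδ5, s5⟩ := hsmall (1 / 20) (by norm_num)
  obtain ⟨δ6, hδ6, s6⟩ := hsmall (1 / 10) (by norm_num)
  set δ := min (min (min δ1 δ2) (min δ3 δ4)) (min (min δ5 δ6) (x0 / 1001)) with hδ
  have hδ0 : 0 < δ := by
    simp only [hδ, lt_min_iff]
    exact ⟨⟨⟨hδ1, hδ2⟩, ⟨hδ3, hδ4⟩⟩, ⟨⟨hδ5, hδ6⟩, by positivity⟩⟩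
  obtain ⟨j, hj⟩ := exists_nat_gt (1 / δ)
  have hj2 : (j : ℝ) < 2 ^ j := by exact_mod_cast Nat.lt_two_pow_self
  have h2j : (0 : ℝ) < 2 ^ j := by positivity
  set h : ℝ := 1 / (5000 * 2 ^ j) with hh
  have hh0 : 0 < h := by positivity
  have hhδ : h < δ := by
    rw [hh, div_lt_iff₀ (by positivity)]
    have : 1 / δ < 2 ^ j := hj.trans hj2
    rw [div_lt_iff₀ hδ0] at this
    nlinarith
  have hjh : 2 ^ j * (1000 * h) = 1 / 5 := by
    rw [hh]; field_simp; norm_num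
  have h1j : (1 : ℝ) ≤ 2 ^ j := one_le_pow₀ (by norm_num)
  have hhs : h ≤ 1 / 5000 := by
    rw [hh]
    apply one_div_le_one_div_of_le (by norm_num)
    linarith
  have hm := hhδ
  simp only [hδ, lt_min_iff] at hm
  obtain ⟨⟨⟨m1, m2⟩, ⟨m3, m4⟩⟩, ⟨⟨m5, m6⟩, m7⟩⟩ := hm
  have hx0h : 1001 * h ≤ x0 := by
    rw [lt_div_iff₀ (by norm_num)] at m7
    linarith
  -- the starting bound
  have hstart : ∀ a ≤ 1000 * h, d F h 5 a ≤ c * (1 + 2001 / 100000) * h := by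
    intro a ha
    unfold d
    rcases le_total a 0 with h0 | h0
    · rw [hF.zero 5 a h0]
      have h1 := hF.mono 5 (show a + h ≤ h by linarith)
      have h2 := (hlin h hh0.le (by linarith)).2
      nlinarith [mul_pos hc hh0]
    · have h1 := (hlin (a + h) (by linarith) (by linarith)).2
      have h2 := (hlin a h0 (by linarith)).1
      have h3 : c * a ≤ c * (1000 * h) := mul_le_mul_of_nonneg_left ha hc.le
      nlinarith [mul_pos hc hh0]
  have hfin := hF.final hh0 (B := c * (1 + 2001 / 100000) * h) (by positivity) hstart j hjh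
  have hdec := hF.deconv hh0.le (by linarith : h ≤ 1 / 100)
  have t1 := abs_le.1 (s1 h hh0.le m1)
  have t2 := abs_le.1 (s2 h hh0.le m2)
  have t3 := abs_le.1 (s3 h hh0.le m3)
  have t4 := abs_le.1 (s4 h hh0.le m4)
  have t5 := abs_le.1 (s5 h hh0.le m5)
  have t6 := abs_le.1 (s6 h hh0.le m6)
  have hlow := (hlin h hh0.le (by linarith)).1
  have hU5 : U F 5 h = F 5 h / 5 := by unfold U; norm_num
  have hE5 : -(d F h 5 (1 / 2 - h)) / 5 ≤ E F h 5 (1 / 2) := by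
    unfold E U d
    have := hF.mono 5 (show (1 / 2 : ℝ) ≤ 1 / 2 + h by linarith)
    have e : (1 / 2 : ℝ) - h + h = 1 / 2 := by ring
    rw [e]
    push_cast
    linarith
  rw [hU5] at hdec
  have hch := mul_pos hc hh0
  nlinarith [t1.1, t1.2, t2.1, t2.2, t3.1, t3.2, t4.1, t4.2, t5.1, t5.2, t6.1, t6.2]

end Pool.Agent.Lib.MP_37d573_pr
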