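import Mathlib
import Pool.Agent.Lib.MP_37d573_pr.Core

set_option autoImplicit false

namespace Pool.Agent.Lib.MP_37d573_pr

open Finset MeasureTheory Filter Topology ProbabilityTheory
open scoped ENNReal

lemma measurable_tsum_aux {Ω : Type*} {m : MeasurableSpace Ω} {f : ℕ → Ω → ℝ≥0∞}
    (h : ∀ k, Measurable (f k)) : Measurable (fun ω => ∑' k, f k ω) := Measurable.tsum h

variable {Ω : Type*} [mΩ : MeasurableSpace Ω] {P : Measure Ω} {I : ℕ+ → Ω → ℝ}

/-- The tail `∑_{k > n} I_k / k`, with values in `[0, ∞]`. -/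
noncomputable def Z (I : ℕ+ → Ω → ℝ) (n : ℕ) (ω : Ω) : ℝ≥0∞ :=
  ∑' k : ℕ, ENNReal.ofReal (I (n + k).succPNat ω / ((n + k : ℕ) + 1))

omit mΩ in
lemma Z_succ (n : ℕ) (ω : Ω) :
    Z I n ω = ENNReal.ofReal (I n.succPNat ω / (n + 1)) + Z I (n + 1) ω := by
  unfold Z
  rw [tsum_eq_zero_add' ENNReal.summable]
  congr 1
  refine tsum_congr fun k => ?_
  have e : n + (k + 1) = n + 1 + k := by ring
  rw [e]

lemma measurable_Z (hmeas : ∀ n, Measurable (I n)) (n : ℕ) : Measurable (Z I n) := by
  unfold Z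
  exact Measurable.tsum fun k => ((hmeas _).div_const _).ennreal_ofReal

lemma indep_Z (hmeas : ∀ n, Measurable (I n)) (hindep : iIndepFun I P) (n : ℕ) :
    IndepFun (I n.succPNat) (Z I (n + 1)) P := by
  have h1 := indep_iSup_of_disjoint (m := fun i => MeasurableSpace.comap (I i) inferInstance)
    (fun i => (hmeas i).comap_le) hindep.iIndep
    (S := {n.succPNat}) (T := {i | n.succPNat < i}) (by
      rw [Set.disjoint_left]
      intro i hi hi2
      rw [Set.mem_singleton_iff] at hi
      rw [Set.mem_ofPred_eq, hi] at hi2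
      exact lt_irrefl _ hi2)
  rw [IndepFun_iff_Indep]
  refine indep_of_indep_of_le_left (indep_of_indep_of_le_right h1 ?_) ?_
  · rw [← measurable_iff_comap_le]
    unfold Z
    refine measurable_tsum_aux fun k => ?_
    refine Measurable.ennreal_ofReal ?_
    refine Measurable.div_const ?_ _
    rw [measurable_iff_comap_le]
    refine le_iSup₂_of_le (n + 1 + k).succPNat ?_ le_rfl
    rw [Set.mem_ofPred_eq, ← PNat.coe_lt_coe]
    simp only [Nat.succPNat_coe, Nat.succ_eq_add_one]
    omega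
  · exact le_iSup₂_of_le n.succPNat (Set.mem_singleton _) le_rfl

/-- The distribution functions of the tails. -/
noncomputable def Fd (P : Measure Ω) (I : ℕ+ → Ω → ℝ) (n : ℕ) (x : ℝ) : ℝ :=
  P.real {ω | Z I n ω < ENNReal.ofReal x}

omit mΩ in
lemma Z_lt_iff (n : ℕ) (ω : Ω) (x : ℝ) (hval : ∀ n ω, I n ω = 0 ∨ I n ω = 1) :
    Z I n ω < ENNReal.ofReal x ↔
      (I n.succPNat ω = 0 ∧ Z I (n + 1) ω < ENNReal.ofReal x) ∨
      (I n.succPNat ω = 1 ∧ Z I (n + 1) ω < ENNReal.ofReal (x - 1 / (n + 1))) := by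
  rw [Z_succ]
  have hpos : (0 : ℝ) ≤ 1 / ((n : ℝ) + 1) := by positivity
  rcases hval n.succPNat ω with h | h
  · rw [h]; simp
  · rw [h, ENNReal.ofReal_sub _ hpos, lt_tsub_iff_left]; simp

lemma Fd_rec [IsProbabilityMeasure P] (hmeas : ∀ n, Measurable (I n)) (hindep : iIndepFun I P)
    (hval : ∀ n ω, I n ω = 0 ∨ I n ω = 1)
    (hprob : ∀ n : ℕ+, P {ω | I n ω = 1} = ENNReal.ofReal (1 / n)) : Rec (Fd P I) := by
  intro n _ x
  have hZ := measurable_Z hmeas (n + 1)
  have hI := hmeas n.succPNat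
  have hind := indep_Z hmeas hindep n
  have hA : MeasurableSet {ω | I n.succPNat ω = 0} := hI (measurableSet_singleton 0)
  have hB : MeasurableSet {ω | I n.succPNat ω = 1} := hI (measurableSet_singleton 1)
  have hC : ∀ c : ℝ≥0∞, MeasurableSet {ω | Z I (n + 1) ω < c} := fun c => hZ measurableSet_Iio
  have h1 : P.real {ω | I n.succPNat ω = 1} = 1 / (n + 1) := by
    rw [measureReal_def, hprob, ENNReal.toReal_ofReal (by positivity)]
    simp
  have h0 : P.real {ω | I n.succPNat ω = 0} = n / (n + 1) := by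
    have e : {ω | I n.succPNat ω = 0} = {ω | I n.succPNat ω = 1}ᶜ := by
      ext ω
      simp only [Set.mem_ofPred_eq, Set.mem_compl_iff]
      rcases hval n.succPNat ω with h | h <;> rw [h] <;> norm_num
    rw [e, probReal_compl_eq_one_sub hB, h1]
    have : (n : ℝ) + 1 ≠ 0 := by positivity
    field_simp
    ring
  have hset : {ω | Z I n ω < ENNReal.ofReal x} =
      ({ω | I n.succPNat ω = 0} ∩ {ω | Z I (n + 1) ω < ENNReal.ofReal x}) ∪
      ({ω | I n.succPNat ω = 1} ∩ {ω | Z I (n + 1) ω < ENNReal.ofReal (x - 1 / (n + 1))}) := by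
    ext ω
    exact Z_lt_iff n ω x hval
  have hdisj : Disjoint
      ({ω | I n.succPNat ω = 0} ∩ {ω | Z I (n + 1) ω < ENNReal.ofReal x})
      ({ω | I n.succPNat ω = 1} ∩ {ω | Z I (n + 1) ω < ENNReal.ofReal (x - 1 / (n + 1))}) := by
    rw [Set.disjoint_left]
    rintro ω ⟨h, _⟩ ⟨h', _⟩
    rw [Set.mem_ofPred_eq] at h h'
    rw [h] at h'
    norm_num at h'
  have hprod : ∀ (v : ℝ) (c : ℝ≥0∞), P.real ({ω | I n.succPNat ω = v} ∩ {ω | Z I (n + 1) ω < c}) =
      P.real {ω | I n.succPNat ω = v} * P.real {ω | Z I (n + 1) ω < c} := by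
    intro v c
    have := hind.measure_inter_preimage_eq_mul {v} (Set.Iio c) (measurableSet_singleton v)
      measurableSet_Iio
    rw [measureReal_def, measureReal_def, measureReal_def, ← ENNReal.toReal_mul]
    exact congrArg ENNReal.toReal this
  unfold Fd
  rw [hset, measureReal_union hdisj (hB.inter (hC _)), hprod, hprod, h0, h1]

lemma lintegral_Z [IsProbabilityMeasure P] (hmeas : ∀ n, Measurable (I n))
    (hval : ∀ n ω, I n ω = 0 ∨ I n ω = 1)
    (hprob : ∀ n : ℕ+, P {ω | I n ω = 1} = ENNReal.ofReal (1 / n)) (n : ℕ) (hn : 1 ≤ n) :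
    ∫⁻ ω, Z I n ω ∂P ≤ ENNReal.ofReal (1 / n) := by
  unfold Z
  rw [lintegral_tsum fun k => (((hmeas _).div_const _).ennreal_ofReal).aemeasurable]
  have hterm : ∀ k : ℕ, ∫⁻ ω, ENNReal.ofReal (I (n + k).succPNat ω / ((n + k : ℕ) + 1)) ∂P =
      ENNReal.ofReal (1 / ((n + k : ℕ) + 1) ^ 2) := by
    intro k
    have e : (fun ω => ENNReal.ofReal (I (n + k).succPNat ω / ((n + k : ℕ) + 1))) =
        {ω | I (n + k).succPNat ω = 1}.indicator
          (fun _ => ENNReal.ofReal (1 / (((n + k : ℕ) : ℝ) + 1))) := by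
      funext ω
      by_cases h : ω ∈ {ω | I (n + k).succPNat ω = 1}
      · rw [Set.indicator_of_mem h]
        rw [Set.mem_ofPred_eq] at h
        rw [h]
      · rw [Set.indicator_of_notMem h]
        rw [Set.mem_ofPred_eq] at h
        have h0 : I (n + k).succPNat ω = 0 := (hval _ ω).resolve_right h
        rw [h0]; simp
    have hs : MeasurableSet {ω | I (n + k).succPNat ω = 1} := (hmeas _) (measurableSet_singleton 1)
    rw [e, lintegral_indicator_const hs, hprob,
      ← ENNReal.ofReal_mul (by positivity)]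
    congr 1
    simp only [Nat.succPNat_coe]
    push_cast
    field_simp
  simp_rw [hterm]
  refine ENNReal.tsum_le_of_sum_range_le fun N => ?_
  rw [← ENNReal.ofReal_sum_of_nonneg (fun i _ => by positivity)]
  refine ENNReal.ofReal_le_ofReal ?_
  have hn0 : (0 : ℝ) < n := by exact_mod_cast hn
  have key : ∀ N : ℕ, ∑ k ∈ range N, (1 / (((n + k : ℕ) : ℝ) + 1) ^ 2) ≤
      1 / (n : ℝ) - 1 / ((n : ℝ) + N) := by
    intro N
    induction N with
    | zero => simp
    | succ N ih =>
      rw [sum_range_succ]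
      push_cast
      have h1 : 1 / ((n : ℝ) + N + 1) ^ 2 ≤ 1 / ((n : ℝ) + N) - 1 / (n + (N + 1)) := by
        have hp : (0 : ℝ) < n + N := by positivity
        have e : 1 / ((n : ℝ) + N) - 1 / (n + (N + 1)) = 1 / ((n + N) * (n + N + 1)) := by
          field_simp; ring
        rw [e]
        apply one_div_le_one_div_of_le (by positivity)
        nlinarith
      push_cast at ih
      linarith
  refine (key N).trans ?_
  have : (0 : ℝ) ≤ 1 / ((n : ℝ) + N) := by positivity
  linarith

lemma fam_Fd [IsProbabilityMeasure P] (hmeas : ∀ n, Measurable (I n)) (hindep : iIndepFun I P)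
    (hval : ∀ n ω, I n ω = 0 ∨ I n ω = 1)
    (hprob : ∀ n : ℕ+, P {ω | I n ω = 1} = ENNReal.ofReal (1 / n)) : Fam (Fd P I) where
  mono := by
    intro n x y hxy
    unfold Fd
    refine measureReal_mono (fun ω hω => ?_)
    exact lt_of_lt_of_le hω (ENNReal.ofReal_le_ofReal hxy)
  zero := by
    intro n x hx
    unfold Fd
    rw [ENNReal.ofReal_of_nonpos hx]
    simp
  le_one := fun n x => measureReal_le_one
  recu := Fd_rec hmeas hindep hval hprob
  tail := by
    intro n hn a
    have hn0 : (0 : ℝ) < n := by exact_mod_cast hn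
    rcases le_or_gt a 0 with ha | ha
    · have h1 : Fd P I n a ≤ 1 := measureReal_le_one
      have h2 : 0 ≤ -a * (1 - Fd P I n a) := mul_nonneg (by linarith) (by linarith)
      have h3 : (0 : ℝ) ≤ 1 / n := by positivity
      linarith
    · have hset : MeasurableSet {ω | Z I n ω < ENNReal.ofReal a} :=
        measurable_Z hmeas n measurableSet_Iio
      have e : 1 - Fd P I n a = P.real {ω | ENNReal.ofReal a ≤ Z I n ω} := by
        unfold Fd
        rw [← probReal_compl_eq_one_sub hset]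
        congr 1
        ext ω
        simp
      have h1 := mul_meas_ge_le_lintegral (μ := P) (measurable_Z hmeas n) (ENNReal.ofReal a)
      have h2 := h1.trans (lintegral_Z hmeas hval hprob n hn)
      have h3 := ENNReal.toReal_mono ENNReal.ofReal_ne_top h2
      rw [ENNReal.toReal_mul, ENNReal.toReal_ofReal ha.le, ENNReal.toReal_ofReal (by positivity)] at h3
      rw [e]
      exact h3

end Pool.Agent.Lib.MP_37d573_pr
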